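import Mathlib

/-!
The earth mover's distance between the two level sets of tribes is unbounded.
-/

namespace Pool.Agent.Results.MP_b6f08f_co.TribesDistance

open Finset

/-- The cube `{0,1}^n`, `n = s * w`, with the coordinates arranged in `s` blocks of size `w`. -/
abbrev Cube (s w : ℕ) : Type := Fin s → Fin w → Bool

/-- Hamming distance. -/
def hdist {s w : ℕ} (x y : Cube s w) : ℕ :=
  (univ.filter (fun p : Fin s × Fin w => x p.1 p.2 ≠ y p.1 p.2)).card

/-- The tribes function: some block is constantly one. -/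
def tribes {s w : ℕ} (x : Cube s w) : Prop := ∃ i, ∀ j, x i j = true

/-- `q` is a coupling of `μ` and `ν`. -/
def IsCoupling {X : Type} [Fintype X] (μ ν : X → ℝ) (q : X → X → ℝ) : Prop :=
  (∀ x y, 0 ≤ q x y) ∧ (∀ x, ∑ y, q x y = μ x) ∧ (∀ y, ∑ x, q x y = ν y)

/-- The earth mover's distance (with respect to the Hamming distance). -/
noncomputable def W1 {s w : ℕ} (μ ν : Cube s w → ℝ) : ℝ :=
  sInf {c | ∃ q, IsCoupling μ ν q ∧ c = ∑ x, ∑ y, (hdist x y : ℝ) * q x y}

open Classical in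
/-- The uniform measure on the set of all `x` with `P x`. -/
noncomputable def unif {X : Type} [Fintype X] (P : X → Prop) (x : X) : ℝ :=
  if P x then 1 / ((univ.filter P).card : ℝ) else 0

theorem unif_apply {X : Type} [Fintype X] (P : X → Prop) [DecidablePred P] (x : X) :
    unif P x = if P x then 1 / ((univ.filter P).card : ℝ) else 0 := by
  unfold unif
  by_cases h : P x
  · rw [if_pos h, if_pos h]
    congr!
  · rw [if_neg h, if_neg h]

theorem sum_unif {X : Type} [Fintype X] (P : X → Prop) [DecidablePred P]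
    (h : ((univ.filter P).card : ℝ) ≠ 0) : ∑ x, unif P x = 1 := by
  simp only [unif_apply]
  rw [← sum_filter, sum_const, nsmul_eq_mul]
  field_simp

/-- Hamming weight -/
def wt {s w : ℕ} (x : Cube s w) : ℕ := ∑ i, ∑ j, (x i j).toNat

theorem wt_le {s w : ℕ} (x y : Cube s w) : (wt y : ℝ) - wt x ≤ hdist x y := by
  have h : wt y ≤ wt x + hdist x y := by
    have h1 : hdist x y = ∑ i, ∑ j, (if x i j ≠ y i j then 1 else 0) := by
      unfold hdist
      rw [card_filter, Fintype.sum_prod_type]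
    unfold wt
    rw [h1, ← sum_add_distrib]
    apply sum_le_sum
    intro i _
    rw [← sum_add_distrib]
    apply sum_le_sum
    intro j _
    cases x i j <;> cases y i j <;> simp
  have h' : (wt y : ℝ) ≤ wt x + hdist x y := by exact_mod_cast h
  linarith

theorem coupling_bound {s w : ℕ} (μ ν : Cube s w → ℝ) (q : Cube s w → Cube s w → ℝ)
    (hq : IsCoupling μ ν q) :
    ∑ y, (wt y : ℝ) * ν y - ∑ x, (wt x : ℝ) * μ x ≤ ∑ x, ∑ y, (hdist x y : ℝ) * q x y := by
  have h1 : ∑ y, (wt y : ℝ) * ν y = ∑ x, ∑ y, (wt y : ℝ) * q x y := by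
    rw [sum_comm]
    apply sum_congr rfl
    intro y _
    rw [← hq.2.2 y, mul_sum]
  have h2 : ∑ x, (wt x : ℝ) * μ x = ∑ x, ∑ y, (wt x : ℝ) * q x y := by
    apply sum_congr rfl
    intro x _
    rw [← hq.2.1 x, mul_sum]
  rw [h1, h2, ← sum_sub_distrib]
  apply sum_le_sum
  intro x _
  rw [← sum_sub_distrib]
  apply sum_le_sum
  intro y _
  rw [← sub_mul]
  exact mul_le_mul_of_nonneg_right (wt_le x y) (hq.1 x y)

/-- sum of a function of one coordinate over a product set -/
theorem sum_pi {s : ℕ} {β : Type} [DecidableEq β] (B : Finset β) (g : β → ℝ) (i₀ : Fin s) :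
    ∑ x ∈ Fintype.piFinset (fun _ : Fin s => B), g (x i₀) =
      (∑ b ∈ B, g b) * (B.card : ℝ) ^ (s - 1) := by
  have h := Finset.prod_univ_sum (fun _ : Fin s => B) (fun i b => if i = i₀ then g b else 1)
  have h1 : ∀ x : Fin s → β, ∏ i, (if i = i₀ then g (x i) else 1) = g (x i₀) := by
    intro x
    rw [Finset.prod_ite_eq' univ i₀ (fun i => g (x i))]
    simp
  simp only [h1] at h
  rw [← h, ← Finset.mul_prod_erase univ _ (mem_univ i₀)]
  congr 1
  · simp
  · have h2 : ∀ i ∈ univ.erase i₀, (∑ b ∈ B, (if i = i₀ then g b else 1)) = (B.card : ℝ) := by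
      intro i hi
      rw [mem_erase] at hi
      simp [hi.1]
    rw [prod_congr rfl h2, prod_const, card_erase_of_mem (mem_univ i₀)]
    simp

/-- the non-constant-one blocks -/
def blk (w : ℕ) : Finset (Fin w → Bool) := univ.erase (fun _ => true)

theorem card_blk (w : ℕ) : ((blk w).card : ℝ) = 2 ^ w - 1 := by
  unfold blk
  rw [card_erase_of_mem (mem_univ _)]
  simp only [card_univ, Fintype.card_pi, Fintype.card_bool, prod_const, Fintype.card_fin]
  rw [Nat.cast_sub (Nat.one_le_two_pow)]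
  push_cast
  ring

/-- weight of a block -/
def bw {w : ℕ} (b : Fin w → Bool) : ℝ := ∑ j, ((b j).toNat : ℝ)

theorem sum_bw (w : ℕ) : ∑ b : Fin w → Bool, bw b = w * 2 ^ w / 2 := by
  have h : ∀ j : Fin w, ∑ b : Fin w → Bool, (((b j).toNat : ℕ) : ℝ) = 2 ^ w / 2 := by
    intro j
    have h1 := sum_pi (s := w) (univ : Finset Bool) (fun b => ((b.toNat : ℕ) : ℝ)) j
    have h2 : Fintype.piFinset (fun _ : Fin w => (univ : Finset Bool)) = univ := by
      ext x; simp
    rw [h2] at h1
    rw [h1]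
    have h3 : w = (w - 1) + 1 := by have := j.isLt; omega
    simp only [Fintype.sum_bool, Bool.toNat_true, Bool.toNat_false, card_univ, Fintype.card_bool]
    conv_rhs => rw [h3, pow_succ]
    push_cast
    ring
  unfold bw
  rw [sum_comm]
  rw [sum_congr rfl (fun j _ => h j)]
  rw [sum_const, card_univ, Fintype.card_fin, nsmul_eq_mul]
  ring

theorem sum_bw_blk (w : ℕ) : ∑ b ∈ blk w, bw b = w * 2 ^ w / 2 - w := by
  have h := Finset.sum_erase_eq_sub (s := univ) (f := fun b : Fin w → Bool => bw b)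
    (mem_univ (fun _ => true))
  unfold blk
  rw [h, sum_bw]
  simp [bw]

theorem wt_eq {s w : ℕ} (x : Cube s w) : (wt x : ℝ) = ∑ i, bw (x i) := by
  unfold wt bw
  push_cast
  rfl

theorem sum_wt (s w : ℕ) (B : Finset (Fin w → Bool)) :
    ∑ x ∈ Fintype.piFinset (fun _ : Fin s => B), (wt x : ℝ) =
      s * ((∑ b ∈ B, bw b) * (B.card : ℝ) ^ (s - 1)) := by
  simp only [wt_eq]
  rw [sum_comm]
  rw [sum_congr rfl (fun i _ => sum_pi B bw i)]
  rw [sum_const, card_univ, Fintype.card_fin, nsmul_eq_mul]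

theorem filter_not (s w : ℕ) [DecidablePred (fun x : Cube s w => ¬ tribes x)] :
    univ.filter (fun x : Cube s w => ¬ tribes x) = Fintype.piFinset (fun _ : Fin s => blk w) := by
  ext x
  simp only [mem_filter, mem_univ, true_and, Fintype.mem_piFinset, blk, mem_erase, ne_eq,
    and_true, tribes, not_exists]
  constructor
  · intro h i hi
    apply h i
    intro j
    rw [hi]
  · intro h i hi
    exact h i (funext hi)

/-- The mean weight gap: main inequality. -/
theorem main_bound (s w : ℕ) (hw : 1 ≤ w) (hs : 2 ^ (w - 1) ≤ s)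
    (hp : 1 - (1 - (1 / 2 : ℝ) ^ w) ^ s ≤ 1 / 2) :
    (w : ℝ) / 2 ≤ W1 (unif (fun x : Cube s w => ¬ tribes x)) (unif (fun x : Cube s w => tribes x)) := by
  classical
  have hs1 : 1 ≤ s := le_trans Nat.one_le_two_pow hs
  set N : ℝ := (2 ^ w) ^ s with hN
  set Z : ℝ := (2 ^ w - 1) ^ s with hZ
  have h2w : (2 : ℝ) ≤ 2 ^ w := by
    calc (2 : ℝ) = 2 ^ 1 := by norm_num
      _ ≤ 2 ^ w := pow_le_pow_right₀ (by norm_num) hw
  have hcardZ : ((univ.filter (fun x : Cube s w => ¬ tribes x)).card : ℝ) = Z := by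
    rw [filter_not, Fintype.card_piFinset]
    simp only [prod_const, card_univ, Fintype.card_fin]
    push_cast
    rw [card_blk]
  have hcardN : ((univ : Finset (Cube s w)).card : ℝ) = N := by
    simp [hN]
  have hcardA : ((univ.filter (fun x : Cube s w => tribes x)).card : ℝ) = N - Z := by
    have h := card_filter_add_card_filter_not (s := (univ : Finset (Cube s w)))
      (fun x : Cube s w => tribes x)
    have h' : ((univ.filter (fun x : Cube s w => tribes x)).card : ℝ) +
        ((univ.filter (fun x : Cube s w => ¬ tribes x)).card : ℝ) =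
        ((univ : Finset (Cube s w)).card : ℝ) := by exact_mod_cast h
    rw [hcardZ, hcardN] at h'
    linarith
  have hZpos : 0 < Z := by
    rw [hZ]
    apply pow_pos
    linarith
  have hNpos : 0 < N := by rw [hN]; positivity
  have hZN : Z < N := by
    rw [hZ, hN]
    apply pow_lt_pow_left₀ (by linarith) (by linarith) (by omega)
  have hZhalf : N / 2 ≤ Z := by
    have h1 : Z = N * (1 - (1 / 2 : ℝ) ^ w) ^ s := by
      rw [hZ, hN, ← mul_pow]
      congr 1
      rw [mul_sub, mul_one, ← mul_pow]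
      norm_num
    rw [h1]
    nlinarith
  -- sums of weights
  have hsumZ : ∑ x ∈ univ.filter (fun x : Cube s w => ¬ tribes x), (wt x : ℝ) =
      s * ((w * 2 ^ w / 2 - w) * (2 ^ w - 1) ^ (s - 1)) := by
    rw [filter_not, sum_wt, sum_bw_blk, card_blk]
  have hsumN : ∑ x : Cube s w, (wt x : ℝ) = s * ((w * 2 ^ w / 2) * (2 ^ w) ^ (s - 1)) := by
    have h := sum_wt s w univ
    have h2 : Fintype.piFinset (fun _ : Fin s => (univ : Finset (Fin w → Bool))) = univ := by
      ext x; simp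
    rw [h2] at h
    rw [h, sum_bw]
    simp
  have hsumA : ∑ x ∈ univ.filter (fun x : Cube s w => tribes x), (wt x : ℝ) =
      s * ((w * 2 ^ w / 2) * (2 ^ w) ^ (s - 1)) -
      s * ((w * 2 ^ w / 2 - w) * (2 ^ w - 1) ^ (s - 1)) := by
    have h := sum_filter_add_sum_filter_not (univ : Finset (Cube s w))
      (fun x : Cube s w => tribes x) (fun x => (wt x : ℝ))
    rw [hsumZ, hsumN] at h
    linarith
  have hNs : (2 ^ w : ℝ) ^ (s - 1) * 2 ^ w = N := by
    rw [hN, ← pow_succ]; congr 1; omega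
  have hZs : (2 ^ w - 1 : ℝ) ^ (s - 1) * (2 ^ w - 1) = Z := by
    rw [hZ, ← pow_succ]; congr 1; omega
  -- expectations
  have hE0 : ∑ x : Cube s w, (wt x : ℝ) * unif (fun x : Cube s w => ¬ tribes x) x =
      (∑ x ∈ univ.filter (fun x : Cube s w => ¬ tribes x), (wt x : ℝ)) / Z := by
    rw [sum_filter, sum_div]
    apply sum_congr rfl
    intro x _
    rw [unif_apply]
    by_cases h : ¬ tribes x
    · rw [if_pos h, if_pos h, hcardZ]; ring
    · rw [if_neg h, if_neg h]; simp
  have hE1 : ∑ x : Cube s w, (wt x : ℝ) * unif (fun x : Cube s w => tribes x) x =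
      (∑ x ∈ univ.filter (fun x : Cube s w => tribes x), (wt x : ℝ)) / (N - Z) := by
    rw [sum_filter, sum_div]
    apply sum_congr rfl
    intro x _
    rw [unif_apply]
    split_ifs with h
    · rw [hcardA]; ring
    · simp
  have hgap : (w : ℝ) / 2 ≤ ∑ x : Cube s w, (wt x : ℝ) * unif (fun x : Cube s w => tribes x) x -
      ∑ x : Cube s w, (wt x : ℝ) * unif (fun x : Cube s w => ¬ tribes x) x := by
    rw [hE0, hE1, hsumA, hsumZ]
    set a : ℝ := (2 ^ w : ℝ) ^ (s - 1) with ha
    set b : ℝ := (2 ^ w - 1 : ℝ) ^ (s - 1) with hb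
    set t : ℝ := (2 : ℝ) ^ w with ht
    have hbpos : 0 < b := by rw [hb]; apply pow_pos; linarith
    have hw0 : (0 : ℝ) < w := by exact_mod_cast hw
    have hst : t / 2 ≤ s := by
      have h1 : ((2 ^ (w - 1) : ℕ) : ℝ) ≤ s := by exact_mod_cast hs
      have h2 : t / 2 = ((2 ^ (w - 1) : ℕ) : ℝ) := by
        rw [ht]
        push_cast
        have : w = (w - 1) + 1 := by omega
        conv_lhs => rw [this, pow_succ]
        ring
      rw [h2]; exact h1
    have hs0 : (0 : ℝ) < s := by exact_mod_cast hs1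
    have ht1 : 0 < t - 1 := by linarith
    -- E0 = s w (t-2) / (2 (t-1))
    have e0 : s * ((w * t / 2 - w) * b) / Z = s * w * (t - 2) / (2 * (t - 1)) := by
      rw [← hZs]
      field_simp
    have hA : (s : ℝ) * ((w * t / 2) * a) - s * ((w * t / 2 - w) * b) =
        s * w * N / 2 - s * w * (t - 2) / (2 * (t - 1)) * Z := by
      rw [← hZs, ← hNs]
      field_simp
    rw [e0, hA]
    have hNZ : 0 < N - Z := by linarith
    have e1 : (s * w * N / 2 - s * w * (t - 2) / (2 * (t - 1)) * Z) / (N - Z) -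
        s * w * (t - 2) / (2 * (t - 1)) = s * w / (2 * (t - 1)) * (N / (N - Z)) := by
      field_simp
      ring
    rw [e1]
    have h3 : 2 ≤ N / (N - Z) := by
      rw [le_div_iff₀ hNZ]
      linarith
    have h4 : (w : ℝ) / 4 ≤ s * w / (2 * (t - 1)) := by
      rw [div_le_div_iff₀ (by norm_num) (by linarith)]
      nlinarith
    calc (w : ℝ) / 2 = w / 4 * 2 := by ring
      _ ≤ s * w / (2 * (t - 1)) * (N / (N - Z)) := by
        apply mul_le_mul h4 h3 (by norm_num)
        exact le_trans (by positivity) h4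
  -- conclusion
  unfold W1
  apply le_csInf
  · refine ⟨_, fun x y => unif (fun x : Cube s w => ¬ tribes x) x *
      unif (fun x : Cube s w => tribes x) y, ⟨?_, ?_, ?_⟩, rfl⟩
    · intro x y
      have hn : ∀ (P : Cube s w → Prop) (x : Cube s w), 0 ≤ unif P x := by
        intro P x
        unfold unif
        split_ifs <;> positivity
      exact mul_nonneg (hn _ _) (hn _ _)
    · intro x
      rw [← mul_sum]
      rw [sum_unif _ (by rw [hcardA]; linarith), mul_one]
    · intro y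
      rw [← sum_mul]
      rw [sum_unif _ (by rw [hcardZ]; exact hZpos.ne'), one_mul]
  · rintro c ⟨q, hq, rfl⟩
    exact hgap.trans (coupling_bound _ _ q hq)

/-- For every `w ≥ 1`, with `s = s_w` the largest integer such that
`Pr[T_{s,w} = 1] = 1 - (1 - 2^{-w})^s ≤ 1/2`, the earth mover's distance between the uniform
measures on the two level sets of the tribes function `T_{s,w}` is at least `w / 2`. -/
theorem result (w : ℕ) (hw : 1 ≤ w) :
    ∃ s : ℕ, IsGreatest {s : ℕ | 1 - (1 - (1 / 2 : ℝ) ^ w) ^ s ≤ 1 / 2} s ∧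
      (w : ℝ) / 2 ≤
        W1 (unif (fun x : Cube s w => ¬ tribes x)) (unif (fun x : Cube s w => tribes x)) := by
  have h0 : (0 : ℝ) < (1 / 2) ^ w := by positivity
  have h1 : ((1 : ℝ) / 2) ^ w ≤ 1 / 2 := by
    calc ((1 : ℝ) / 2) ^ w ≤ (1 / 2) ^ 1 :=
          pow_le_pow_of_le_one (by norm_num) (by norm_num) hw
      _ = 1 / 2 := by norm_num
  -- existence of the largest s
  have hbdd : BddAbove {s : ℕ | 1 - (1 - (1 / 2 : ℝ) ^ w) ^ s ≤ 1 / 2} := by
    obtain ⟨m, hm⟩ := exists_pow_lt_of_lt_one (show (0 : ℝ) < 1 / 2 by norm_num)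
      (show 1 - (1 / 2 : ℝ) ^ w < 1 by linarith)
    refine ⟨m, ?_⟩
    intro s hs
    by_contra hcon
    push Not at hcon
    have h2 : (1 - (1 / 2 : ℝ) ^ w) ^ s ≤ (1 - (1 / 2 : ℝ) ^ w) ^ m :=
      pow_le_pow_of_le_one (by linarith) (by linarith) hcon.le
    have h3 : 1 - (1 - (1 / 2 : ℝ) ^ w) ^ s ≤ 1 / 2 := hs
    linarith
  have hmem : 2 ^ (w - 1) ∈ {s : ℕ | 1 - (1 - (1 / 2 : ℝ) ^ w) ^ s ≤ 1 / 2} := by
    show 1 - (1 - (1 / 2 : ℝ) ^ w) ^ (2 ^ (w - 1)) ≤ 1 / 2
    have hb := one_add_mul_le_pow (show (-2 : ℝ) ≤ -(1 / 2 : ℝ) ^ w by linarith) (2 ^ (w - 1))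
    have h2 : ((2 ^ (w - 1) : ℕ) : ℝ) * (1 / 2 : ℝ) ^ w = 1 / 2 := by
      obtain ⟨v, rfl⟩ : ∃ v, w = v + 1 := ⟨w - 1, by omega⟩
      simp only [Nat.add_sub_cancel]
      push_cast
      rw [pow_succ, ← mul_assoc, ← mul_pow]
      norm_num
    have h3 : (1 : ℝ) + -(1 / 2 : ℝ) ^ w = 1 - (1 / 2 : ℝ) ^ w := by ring
    rw [h3] at hb
    linarith
  have hg : IsGreatest {s : ℕ | 1 - (1 - (1 / 2 : ℝ) ^ w) ^ s ≤ 1 / 2}
      (sSup {s : ℕ | 1 - (1 - (1 / 2 : ℝ) ^ w) ^ s ≤ 1 / 2}) :=
    ⟨Nat.sSup_mem ⟨_, hmem⟩ hbdd, fun s hs => le_csSup hbdd hs⟩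
  exact ⟨_, hg, main_bound _ w hw (hg.2 hmem) hg.1⟩

end Pool.Agent.Results.MP_b6f08f_co.TribesDistance
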